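import Mathlib

/-!
# Auxiliary results for MP_2b461e_nt (counting solutions of sigma_2 = sigma_n)

The theorem `core` at the end of this file says that there are arbitrarily large `n` such that no
tuple consisting of `m` ones, `a` copies of `u` and `b` copies of `v` (`m + a + b = n`,
`1 ≤ a ≤ b`, `u, v ≥ 2`) satisfies `σ₂ = σ_n`.  Outline:

* `(a, b) = (1, 1)` is impossible, and `(2,2), (2,3), (2,4), (3,3)` are impossible modulo powers
  of two when `n ≡ 1 (mod 8)`;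
* `a, b ≥ 3`: few pairs `(u, v)` because `u^a v^b = O(N^2)`;
* `a = 2` (also `(a, b) = (1, 2)` with small single entry): for fixed `(b, v)` the number `u` is
  the abscissa of a lattice point on a hyperbola, and these abscissae form a Sidon set;
* `a = 1`: `v^b - b v - m` divides a nonzero integer depending on `(b, v)` only, and the divisor
  bound applies.
-/

namespace Pool.Agent.Helper47.SigmaTwo

/-- polynomial growth against exponential growth -/
lemma pow_le_const_mul_two_pow (r : ℕ) : ∃ C : ℕ, 1 ≤ C ∧ ∀ v : ℕ, (v + 1) ^ r ≤ C * 2 ^ v := by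
  have h := tendsto_pow_const_mul_const_pow_of_abs_lt_one r (r := (1/2 : ℝ)) (by norm_num [abs_of_pos])
  obtain ⟨B, hB⟩ := h.bddAbove_range
  refine ⟨⌈2 * B⌉₊ + 1, by omega, fun v => ?_⟩
  have h1 := hB (Set.mem_range_self (v + 1))

  have h2 : ((v + 1 : ℕ) : ℝ) ^ r ≤ 2 * B * 2 ^ v := by
    have h3 : (1 / 2 : ℝ) ^ (v + 1) * 2 ^ (v + 1) = 1 := by
      rw [← mul_pow]; norm_num
    have h4 : ((v + 1 : ℕ) : ℝ) ^ r = (((v + 1 : ℕ) : ℝ) ^ r * (1 / 2 : ℝ) ^ (v + 1)) * 2 ^ (v + 1) := by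
      rw [mul_assoc, h3, mul_one]
    rw [h4]
    calc (((v + 1 : ℕ) : ℝ) ^ r * (1 / 2 : ℝ) ^ (v + 1)) * 2 ^ (v + 1) ≤ B * 2 ^ (v + 1) := by
          gcongr
      _ = 2 * B * 2 ^ v := by ring
  have h5 : (2 * B : ℝ) ≤ ((⌈2 * B⌉₊ + 1 : ℕ) : ℝ) := by
    push_cast
    have := Nat.le_ceil (2 * B)
    linarith
  have h6 : (((v + 1) ^ r : ℕ) : ℝ) ≤ (((⌈2 * B⌉₊ + 1) * 2 ^ v : ℕ) : ℝ) := by
    push_cast at h2 h5 ⊢
    calc ((v : ℝ) + 1) ^ r ≤ 2 * B * 2 ^ v := h2
      _ ≤ _ := by gcongr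
  exact_mod_cast h6

/-- the divisor bound -/
theorem divisor_bound (r : ℕ) : ∃ C : ℕ, 1 ≤ C ∧ ∀ n : ℕ, n ≠ 0 → n.divisors.card ^ r ≤ C * n := by
  obtain ⟨C, hC1, hC⟩ := pow_le_const_mul_two_pow r
  refine ⟨C ^ (2 ^ r), Nat.one_le_pow _ _ hC1, fun n hn => ?_⟩
  rw [Nat.card_divisors hn, ← Finset.prod_pow]
  have hn' : n = ∏ p ∈ n.primeFactors, p ^ n.factorization p := by
    conv_lhs => rw [← Nat.prod_factorization_pow_eq_self hn]
    rfl
  have key : ∀ p ∈ n.primeFactors,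
      (n.factorization p + 1) ^ r ≤ (if p < 2 ^ r then C else 1) * p ^ n.factorization p := by
    intro p hp
    have hp2 : 2 ≤ p := (Nat.prime_of_mem_primeFactors hp).two_le
    split_ifs with h
    · calc (n.factorization p + 1) ^ r ≤ C * 2 ^ n.factorization p := hC _
        _ ≤ _ := by gcongr
    · push Not at h
      rw [one_mul]
      calc (n.factorization p + 1) ^ r ≤ (2 ^ n.factorization p) ^ r := by
            gcongr
            exact Nat.lt_two_pow_self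
        _ = (2 ^ r) ^ n.factorization p := by rw [← pow_mul, ← pow_mul, mul_comm]
        _ ≤ _ := by gcongr
  calc ∏ p ∈ n.primeFactors, (n.factorization p + 1) ^ r
      ≤ ∏ p ∈ n.primeFactors, ((if p < 2 ^ r then C else 1) * p ^ n.factorization p) :=
        Finset.prod_le_prod' key
    _ = (∏ p ∈ n.primeFactors, (if p < 2 ^ r then C else 1)) * n := by
        rw [Finset.prod_mul_distrib, ← hn']
    _ ≤ C ^ (2 ^ r) * n := by
        gcongr
        rw [Finset.prod_ite, Finset.prod_const, Finset.prod_const_one, mul_one]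
        apply Nat.pow_le_pow_right hC1
        calc (n.primeFactors.filter (fun p => p < 2 ^ r)).card ≤ (Finset.range (2 ^ r)).card := by
              apply Finset.card_le_card
              intro p hp
              simp only [Finset.mem_filter] at hp
              exact Finset.mem_range.2 hp.2
          _ = 2 ^ r := Finset.card_range _

/-- a set of naturals in `[0,X]` with distinct differences is small -/
lemma sidon_card (S : Finset ℕ) (X : ℕ) (hX : ∀ x ∈ S, x ≤ X)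
    (hS : ∀ x ∈ S, ∀ y ∈ S, ∀ x' ∈ S, ∀ y' ∈ S, x < y → x' < y' → y - x = y' - x' → x = x') :
    S.card * (S.card - 1) ≤ 2 * X := by
  have h1 : ((S ×ˢ S).filter (fun p => p.1 < p.2)).card ≤ X := by
    calc ((S ×ˢ S).filter (fun p => p.1 < p.2)).card
        ≤ (Finset.Icc 1 X).card := by
          apply Finset.card_le_card_of_injOn (fun p => p.2 - p.1)
          · intro p hp
            simp only [Finset.coe_filter, Finset.mem_product, Set.mem_ofPred_eq] at hp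
            have := hX _ hp.1.2
            simp only [Finset.coe_Icc, Set.mem_Icc]
            omega
          · intro p hp q hq hpq
            simp only [Finset.coe_filter, Finset.mem_product, Set.mem_ofPred_eq] at hp hq
            simp only at hpq
            have h := hS p.1 hp.1.1 p.2 hp.1.2 q.1 hq.1.1 q.2 hq.1.2 hp.2 hq.2 hpq
            ext
            · exact h
            · omega
      _ = X := by simp
  have h2 : ((S ×ˢ S).filter (fun p => p.2 < p.1)).card ≤ X := by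
    have : ((S ×ˢ S).filter (fun p => p.2 < p.1)).card = ((S ×ˢ S).filter (fun p => p.1 < p.2)).card := by
      apply Finset.card_bij (fun p _ => (p.2, p.1))
      · intro p hp
        simp only [Finset.mem_filter, Finset.mem_product] at hp ⊢
        tauto
      · intro p _ q _ h
        simp only [Prod.mk.injEq] at h
        ext
        · exact h.2
        · exact h.1
      · intro p hp
        simp only [Finset.mem_filter, Finset.mem_product] at hp
        exact ⟨(p.2, p.1), by simp only [Finset.mem_filter, Finset.mem_product]; tauto, rfl⟩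
    rw [this]; exact h1
  have h3 : S.offDiag.card = S.card * S.card - S.card := Finset.offDiag_card S
  have h4 : S.offDiag.card ≤ X + X := by
    have hsub : S.offDiag ⊆ (S ×ˢ S).filter (fun p => p.1 < p.2) ∪ (S ×ˢ S).filter (fun p => p.2 < p.1) := by
      intro p hp
      rw [Finset.mem_offDiag] at hp
      simp only [Finset.mem_union, Finset.mem_filter, Finset.mem_product]
      rcases lt_or_gt_of_ne hp.2.2 with h | h
      · left; exact ⟨⟨hp.1, hp.2.1⟩, h⟩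
      · right; exact ⟨⟨hp.1, hp.2.1⟩, h⟩
    calc S.offDiag.card ≤ _ := Finset.card_le_card hsub
      _ ≤ _ := Finset.card_union_le _ _
      _ ≤ X + X := by gcongr
  rw [Nat.mul_sub, mul_one, ← h3]
  omega

/-- real computation behind the gap argument -/
lemma conic_aux {A G : ℕ} (hA : 9 ≤ A) (hAG : 16 < A * G) {x Z : ℕ} (hx : 1 ≤ x)
    (hZ : (Z : ℤ) ^ 2 = A * x ^ 2 - 8 * x + G) (hG : G ≤ Z) :
    0 < Real.sqrt A * Z - (A * x - 4) ∧ Real.sqrt A * Z - (A * x - 4) < Real.sqrt A ∧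
      (Real.sqrt A * Z - (A * x - 4)) * (Real.sqrt A * Z + (A * x - 4)) = A * G - 16 ∧
      (0:ℝ) < A * x - 4 := by
  set r := Real.sqrt (A : ℝ) with hr
  have hA' : (9 : ℝ) ≤ A := by exact_mod_cast hA
  have hr2 : r * r = A := Real.mul_self_sqrt (by linarith)
  have hr0 : 0 < r := Real.sqrt_pos.2 (by linarith)
  have hx' : (1 : ℝ) ≤ x := by exact_mod_cast hx
  have hAG' : (16 : ℝ) < A * G := by exact_mod_cast hAG
  have hG' : (G : ℝ) ≤ Z := by exact_mod_cast hG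
  have hG0 : (0 : ℝ) < G := by
    by_contra h
    have : (G : ℝ) = 0 := le_antisymm (not_lt.1 h) (Nat.cast_nonneg G)
    rw [this] at hAG'; norm_num at hAG'
  have hZ0 : (0 : ℝ) < Z := lt_of_lt_of_le hG0 hG'
  have hZr : (Z : ℝ) ^ 2 = A * x ^ 2 - 8 * x + G := by exact_mod_cast hZ
  have hX0 : (0 : ℝ) < A * x - 4 := by nlinarith
  have hprod : (r * Z - (A * x - 4)) * (r * Z + (A * x - 4)) = A * G - 16 := by
    have : (r * Z - (A * x - 4)) * (r * Z + (A * x - 4)) = (r * r) * Z ^ 2 - (A * x - 4) ^ 2 := by ring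
    rw [this, hr2, hZr]; ring
  have hsum : 0 < r * Z + (A * x - 4) := by positivity
  have hpos : 0 < r * Z - (A * x - 4) := by
    by_contra h
    push Not at h
    nlinarith
  refine ⟨hpos, ?_, hprod, hX0⟩
  by_contra h
  push Not at h
  have h1 : r * (r * Z) ≤ (r * Z - (A * x - 4)) * (r * Z + (A * x - 4)) := by
    apply mul_le_mul h _ (by positivity) hpos.le
    linarith
  rw [hprod] at h1
  have h2 : r * (r * Z) = A * Z := by rw [← mul_assoc, hr2]
  rw [h2] at h1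
  nlinarith


/-- monotonicity of `Z` -/
lemma conic_mono {A G : ℕ} (hA : 9 ≤ A) {x Z y W : ℕ} (hx : 1 ≤ x) (hxy : x < y)
    (hZ : (Z : ℤ) ^ 2 = A * x ^ 2 - 8 * x + G) (hW : (W : ℤ) ^ 2 = A * y ^ 2 - 8 * y + G) :
    Z < W := by
  have hA' : (9 : ℤ) ≤ A := by exact_mod_cast hA
  have hx' : (1 : ℤ) ≤ x := by exact_mod_cast hx
  have hxy' : (x : ℤ) < y := by exact_mod_cast hxy
  have h : (Z : ℤ) ^ 2 < (W : ℤ) ^ 2 := by
    rw [hZ, hW]
    have h1 : (0 : ℤ) < (y - x) * (A * (x + y) - 8) := by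
      apply mul_pos (by linarith)
      nlinarith
    nlinarith
  have := lt_of_pow_lt_pow_left₀ 2 (Int.natCast_nonneg W) h
  exact_mod_cast this

lemma delta_anti {p q p' q' E : ℝ} (h : p * q = E) (h' : p' * q' = E) (hp' : 0 < p')
    (hq : q < q') (hq0 : 0 ≤ q) : p' < p := by
  by_contra hc
  push Not at hc
  have := mul_lt_mul' hc hq hq0 hp'
  linarith

/-- chord slopes on the conic -/
lemma conic_chord {A G : ℕ} (hA : 9 ≤ A) (hAG : 16 < A * G) {x Z y W : ℕ} (hx : 1 ≤ x)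
    (hxy : x < y)
    (hZ : (Z : ℤ) ^ 2 = A * x ^ 2 - 8 * x + G) (hW : (W : ℤ) ^ 2 = A * y ^ 2 - 8 * y + G)
    (gZ : G ≤ Z) (gW : G ≤ W) :
    Real.sqrt A * (W - Z) < A * (y - x) ∧ A * (y - x) - Real.sqrt A < Real.sqrt A * (W - Z) := by
  obtain ⟨a1, a2, a3, a4⟩ := conic_aux hA hAG hx hZ gZ
  obtain ⟨b1, b2, b3, b4⟩ := conic_aux hA hAG (by omega : 1 ≤ y) hW gW
  have m1 : (Z : ℝ) < W := by exact_mod_cast conic_mono hA hx hxy hZ hW
  have hxy' : (x : ℝ) < y := by exact_mod_cast hxy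
  have hA' : (9 : ℝ) ≤ A := by exact_mod_cast hA
  have hr0 : 0 < Real.sqrt (A : ℝ) := Real.sqrt_pos.2 (by linarith)
  have m2 : Real.sqrt (A : ℝ) * Z < Real.sqrt A * W := mul_lt_mul_of_pos_left m1 hr0
  have m3 : (A : ℝ) * x < A * y := by
    apply mul_lt_mul_of_pos_left hxy'; linarith
  have m4 : 0 ≤ Real.sqrt (A : ℝ) * Z := by positivity
  have e1 : Real.sqrt A * W - (A * y - 4) < Real.sqrt A * Z - (A * x - 4) :=
    delta_anti a3 b3 b1 (by linarith) (by linarith)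
  constructor <;> linarith

/-- points on the conic have distinct differences of abscissae -/
lemma conic_unique {A G : ℕ} (hA : 9 ≤ A) (hAG : 16 < A * G)
    {x y x' y' Z W Z' W' : ℕ} (hx : 1 ≤ x) (hxx : x < x') (hxy : x < y) (hxy' : x' < y')
    (hd : y - x = y' - x')
    (hZ : (Z : ℤ) ^ 2 = A * x ^ 2 - 8 * x + G) (hW : (W : ℤ) ^ 2 = A * y ^ 2 - 8 * y + G)
    (hZ' : (Z' : ℤ) ^ 2 = A * x' ^ 2 - 8 * x' + G) (hW' : (W' : ℤ) ^ 2 = A * y' ^ 2 - 8 * y' + G)
    (gZ : G ≤ Z) (gW : G ≤ W) (gZ' : G ≤ Z') (gW' : G ≤ W') : False := by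
  obtain ⟨j1, j2⟩ := conic_chord hA hAG hx hxy hZ hW gZ gW
  obtain ⟨j3, j4⟩ := conic_chord hA hAG (by omega) hxy' hZ' hW' gZ' gW'
  obtain ⟨f1, -⟩ := conic_chord hA hAG hx hxx hZ hZ' gZ gZ'
  have m3 : (Z : ℝ) < Z' := by exact_mod_cast conic_mono hA hx hxx hZ hZ'
  have hZr : (Z : ℝ) ^ 2 = A * x ^ 2 - 8 * x + G := by exact_mod_cast hZ
  have hWr : (W : ℝ) ^ 2 = A * y ^ 2 - 8 * y + G := by exact_mod_cast hW
  have hZr' : (Z' : ℝ) ^ 2 = A * x' ^ 2 - 8 * x' + G := by exact_mod_cast hZ'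
  have hWr' : (W' : ℝ) ^ 2 = A * y' ^ 2 - 8 * y' + G := by exact_mod_cast hW'
  clear hZ hW hZ' hW' gZ gW gZ' gW'
  obtain ⟨h, rfl⟩ : ∃ h, y = x + h := ⟨y - x, by omega⟩
  obtain rfl : y' = x' + h := by omega
  have hh : (0 : ℝ) < h := by
    have : 0 < h := by omega
    exact_mod_cast this
  have hA' : (9 : ℝ) ≤ A := by exact_mod_cast hA
  have hr2 : Real.sqrt (A : ℝ) * Real.sqrt A = A := Real.mul_self_sqrt (by linarith)
  have hr0 : 0 < Real.sqrt (A : ℝ) := Real.sqrt_pos.2 (by linarith)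
  clear hd hxy hxy' hxx hx hA
  generalize Real.sqrt (A : ℝ) = r at *
  push_cast at j1 j2 j3 j4 hWr hWr'
  have jeq : (W : ℤ) - Z = W' - Z' := by
    have k1 : ((W : ℝ) - Z) - (W' - Z') < 1 := by
      by_contra hc
      push Not at hc
      have := mul_le_mul_of_nonneg_left hc hr0.le
      linarith
    have k2 : ((W' : ℝ) - Z') - (W - Z) < 1 := by
      by_contra hc
      push Not at hc
      have := mul_le_mul_of_nonneg_left hc hr0.le
      linarith
    have k1' : ((W : ℤ) - Z) - (W' - Z') < 1 := by exact_mod_cast k1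
    have k2' : ((W' : ℤ) - Z') - (W - Z) < 1 := by exact_mod_cast k2
    omega
  have jeqr : (W : ℝ) - Z = W' - Z' := by exact_mod_cast jeq
  have key : ((W : ℝ) - Z) * (Z' - Z) = A * h * (x' - x) := by
    have w2 : (W' : ℝ) = Z' + (W - Z) := by linarith
    rw [w2] at hWr'
    linear_combination (hWr' - hZr' - hWr + hZr) / 2
  have f2 : h * r * (Z' - Z) < ((W : ℝ) - Z) * (Z' - Z) := by
    rw [key]
    have := mul_lt_mul_of_pos_left f1 hh
    linarith
  have f3 : h * r < (W : ℝ) - Z := lt_of_mul_lt_mul_right f2 (by linarith)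
  have f4 : r * (h * r) < r * (W - Z) := mul_lt_mul_of_pos_left f3 hr0
  have f5 : r * (h * r) = A * h := by rw [← hr2]; ring
  have f6 : (A : ℝ) * (x + h - x) = A * h := by ring
  linarith

/-- number of points on the conic -/
theorem conic_card {A G : ℕ} (hA : 9 ≤ A) (hAG : 16 < A * G) (S : Finset ℕ) (X : ℕ)
    (hX : ∀ x ∈ S, x ≤ X) (h1 : ∀ x ∈ S, 1 ≤ x)
    (hS : ∀ x ∈ S, ∃ Z : ℕ, (Z : ℤ) ^ 2 = A * x ^ 2 - 8 * x + G ∧ G ≤ Z) :
    S.card * (S.card - 1) ≤ 2 * X := by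
  apply sidon_card S X hX
  intro x hx y hy x' hx' y' hy' hxy hxy' hd
  obtain ⟨Z, hZ, gZ⟩ := hS x hx
  obtain ⟨W, hW, gW⟩ := hS y hy
  obtain ⟨Z', hZ', gZ'⟩ := hS x' hx'
  obtain ⟨W', hW', gW'⟩ := hS y' hy'
  rcases lt_trichotomy x x' with h | h | h
  · exact (conic_unique hA hAG (h1 x hx) h hxy hxy' hd hZ hW hZ' hW' gZ gW gZ' gW').elim
  · exact h
  · exact (conic_unique hA hAG (h1 x' hx') h hxy' hxy hd.symm hZ' hW' hZ hW gZ' gW' gZ gW).elim

/-- the equation `σ₂ = σ_n` (doubled) for a tuple with `m` ones, `a` entries `u`, `b` entries `v` -/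
def E (a b u v m : ℕ) : Prop :=
  2 * (u ^ a * v ^ b) + m + a * u ^ 2 + b * v ^ 2 = (m + a * u + b * v) ^ 2

lemma E_symm {a b u v m : ℕ} (h : E a b u v m) : E b a v u m := by
  unfold E at *
  rw [mul_comm (v ^ b)]
  calc 2 * (u ^ a * v ^ b) + m + b * v ^ 2 + a * u ^ 2
      = 2 * (u ^ a * v ^ b) + m + a * u ^ 2 + b * v ^ 2 := by ring
    _ = (m + a * u + b * v) ^ 2 := h
    _ = _ := by ring

lemma E_unique {a b u v m m' : ℕ} (ha : 1 ≤ a) (hu : 1 ≤ u) (h : E a b u v m)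
    (h' : E a b u v m') : m = m' := by
  have hs : 1 ≤ a * u := Nat.mul_pos ha hu
  have aux : ∀ m m' : ℕ, m < m' → E a b u v m → E a b u v m' → False := by
    intro m m' hlt h h'
    obtain ⟨k, rfl⟩ : ∃ k, m' = m + (k + 1) := ⟨m' - m - 1, by omega⟩
    unfold E at h h'
    have h3 : (m + (k + 1) + a * u + b * v) ^ 2 = (m + a * u + b * v) ^ 2 + (k + 1) := by
      rw [← h, ← h']; ring
    have h4 : (m + (k + 1) + a * u + b * v) ^ 2 = (m + a * u + b * v) ^ 2
        + (k + 1) * ((k + 1) + 2 * (m + a * u + b * v)) := by ring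
    rw [h4] at h3
    have h5 : (k + 1) * ((k + 1) + 2 * (m + a * u + b * v)) = k + 1 := by omega
    have h6 : (k + 1) * 2 ≤ (k + 1) * ((k + 1) + 2 * (m + a * u + b * v)) := by
      apply Nat.mul_le_mul_left
      omega
    omega
  rcases lt_trichotomy m m' with hlt | heq | hgt
  · exact (aux m m' hlt h h').elim
  · exact heq
  · exact (aux m' m hgt h' h).elim

lemma size_lemma (Q n s : ℕ) (h1 : Q ≤ (n + s) ^ 2) (h2 : 100 * s ^ 2 ≤ 81 * Q) :
    Q ≤ 100 * n ^ 2 := by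
  by_contra h
  push Not at h
  nlinarith [sq_nonneg ((9 : ℤ) * n - s)]

lemma card_le_of_rel {α β : Type*} (B : Finset α) (V : Finset β) (R : α → β → Prop)
    (h1 : ∀ n ∈ B, ∃ v ∈ V, R n v) (h2 : ∀ n n' v, R n v → R n' v → n = n') :
    B.card ≤ V.card := by
  classical
  rcases B.eq_empty_or_nonempty with hB | ⟨n0, hn0⟩
  · simp [hB]
  obtain ⟨v0, -, -⟩ := h1 n0 hn0
  have : Nonempty β := ⟨v0⟩
  choose! f hf using h1
  apply Finset.card_le_card_of_injOn f
  · intro n hn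
    exact (hf n hn).1
  · intro n hn n' hn' h
    have e1 := (hf n hn).2
    have e2 := (hf n' hn').2
    rw [← h] at e2
    exact h2 _ _ _ e1 e2

/-- small cases are impossible modulo powers of two -/
lemma case22 {u v m : ℕ} (hm : (m + 4) % 8 = 1) (h : E 2 2 u v m) : False := by
  unfold E at h
  have h1 := congrArg (fun t : ℕ => (t : ZMod 8)) h
  push_cast at h1
  have h2 : (m : ZMod 8) = 5 := by
    have : ((m : ℕ) : ZMod 8) = ((5 : ℕ) : ZMod 8) := by
      rw [ZMod.natCast_eq_natCast_iff']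
      omega
    simpa using this
  rw [h2] at h1
  revert h1
  generalize (u : ZMod 8) = u
  generalize (v : ZMod 8) = v
  revert u v
  decide

lemma case23 {u v m : ℕ} (hm : (m + 5) % 8 = 1) (h : E 2 3 u v m) : False := by
  unfold E at h
  have h1 := congrArg (fun t : ℕ => (t : ZMod 8)) h
  push_cast at h1
  have h2 : (m : ZMod 8) = 4 := by
    have : ((m : ℕ) : ZMod 8) = ((4 : ℕ) : ZMod 8) := by
      rw [ZMod.natCast_eq_natCast_iff']
      omega
    simpa using this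
  rw [h2] at h1
  revert h1
  generalize (u : ZMod 8) = u
  generalize (v : ZMod 8) = v
  revert u v
  decide

lemma case24 {u v m : ℕ} (hm : (m + 6) % 8 = 1) (h : E 2 4 u v m) : False := by
  unfold E at h
  have h1 := congrArg (fun t : ℕ => (t : ZMod 16)) h
  push_cast at h1
  have h2 : (m : ZMod 16) = 3 ∨ (m : ZMod 16) = 11 := by
    have : m % 16 = 3 ∨ m % 16 = 11 := by omega
    rcases this with h | h
    · left
      have : ((m : ℕ) : ZMod 16) = ((3 : ℕ) : ZMod 16) := by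
        rw [ZMod.natCast_eq_natCast_iff']
        omega
      simpa using this
    · right
      have : ((m : ℕ) : ZMod 16) = ((11 : ℕ) : ZMod 16) := by
        rw [ZMod.natCast_eq_natCast_iff']
        omega
      simpa using this
  rcases h2 with h2 | h2
  · rw [h2] at h1
    revert h1
    generalize (u : ZMod 16) = u
    generalize (v : ZMod 16) = v
    revert u v
    decide
  · rw [h2] at h1
    revert h1
    generalize (u : ZMod 16) = u
    generalize (v : ZMod 16) = v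
    revert u v
    decide

lemma case33 {u v m : ℕ} (hm : (m + 6) % 8 = 1) (h : E 3 3 u v m) : False := by
  unfold E at h
  have h1 := congrArg (fun t : ℕ => (t : ZMod 8)) h
  push_cast at h1
  have h2 : (m : ZMod 8) = 3 := by
    have : ((m : ℕ) : ZMod 8) = ((3 : ℕ) : ZMod 8) := by
      rw [ZMod.natCast_eq_natCast_iff']
      omega
    simpa using this
  rw [h2] at h1
  revert h1
  generalize (u : ZMod 8) = u
  generalize (v : ZMod 8) = v
  revert u v
  decide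

lemma case11 {u v m : ℕ} (hm : 1 ≤ m) (hu : 1 ≤ u) (h : E 1 1 u v m) : False := by
  unfold E at h
  simp only [pow_one, one_mul] at h
  have h1 : (m + u + v) ^ 2 = 2 * (u * v) + m * m + u ^ 2 + v ^ 2 + 2 * (m * u) + 2 * (m * v) := by
    ring
  have h2 : m ≤ m * m := Nat.le_mul_self m
  have h3 : 1 ≤ m * u := Nat.mul_pos hm hu
  omega

lemma two_pow_bound {k : ℕ} (hk : 7 ≤ k) : 100 * k ^ 2 ≤ 81 * 2 ^ (k - 1) := by
  induction k, hk using Nat.le_induction with
  | base => norm_num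
  | succ k hk ih =>
    have h1 : k + 1 - 1 = (k - 1) + 1 := by omega
    rw [h1, pow_succ 2 (k - 1)]
    nlinarith

lemma P_bound_aux {a b u v m : ℕ} (ha : 2 ≤ a) (hk : 7 ≤ a + b) (hv : 2 ≤ v)
    (huv : v ≤ u) (h : E a b u v m) : u ^ a * v ^ b ≤ 50 * m ^ 2 := by
  have hQ : 2 * (u ^ a * v ^ b) ≤ (m + (a * u + b * v)) ^ 2 := by
    unfold E at h
    rw [← add_assoc, ← h]; omega
  have hs : a * u + b * v ≤ (a + b) * u := by nlinarith
  have hP : u ^ 2 * 2 ^ (a + b - 2) ≤ u ^ a * v ^ b := by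
    obtain ⟨a', rfl⟩ : ∃ a', a = a' + 2 := ⟨a - 2, by omega⟩
    have h1 : a' + 2 + b - 2 = a' + b := by omega
    rw [h1, pow_add, pow_add]
    have h2 : 2 ^ a' ≤ u ^ a' := Nat.pow_le_pow_left (by omega) _
    have h3 : 2 ^ b ≤ v ^ b := Nat.pow_le_pow_left hv _
    calc u ^ 2 * (2 ^ a' * 2 ^ b) ≤ u ^ 2 * (u ^ a' * v ^ b) := by gcongr
      _ = u ^ a' * u ^ 2 * v ^ b := by ring
  have h2 : 100 * (a * u + b * v) ^ 2 ≤ 81 * (2 * (u ^ a * v ^ b)) := by
    have h3 := two_pow_bound hk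
    have h4 : a + b - 1 = (a + b - 2) + 1 := by omega
    rw [h4, pow_succ 2 (a + b - 2)] at h3
    calc 100 * (a * u + b * v) ^ 2 ≤ 100 * ((a + b) * u) ^ 2 := by gcongr
      _ = (100 * (a + b) ^ 2) * u ^ 2 := by ring
      _ ≤ (81 * (2 ^ (a + b - 2) * 2)) * u ^ 2 := by gcongr
      _ = 81 * (2 * (u ^ 2 * 2 ^ (a + b - 2))) := by ring
      _ ≤ _ := by gcongr
  have := size_lemma _ _ _ hQ h2
  omega

lemma P_bound {a b u v m : ℕ} (ha : 2 ≤ a) (hb : 2 ≤ b) (hk : 7 ≤ a + b) (hu : 2 ≤ u) (hv : 2 ≤ v)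
    (h : E a b u v m) : u ^ a * v ^ b ≤ 50 * m ^ 2 := by
  rcases le_total v u with h1 | h1
  · exact P_bound_aux ha hk hv h1 h
  · have := P_bound_aux hb (by omega) hu h1 (E_symm h)
    rwa [mul_comm] at this

/-- the divisor `d = v^b - b v - m` -/
lemma E1_d {b u v m : ℕ} (hb : 2 ≤ b) (hv : 2 ≤ v) (h : E 1 b u v m) :
    ∃ d : ℕ, 1 ≤ d ∧ d + m + b * v = v ^ b ∧
      2 * u * d + m + b * v ^ 2 = m ^ 2 + 2 * m * (b * v) + (b * v) ^ 2 := by
  unfold E at h
  simp only [pow_one, one_mul] at h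
  have hZ : 2 * (u : ℤ) * ((v : ℤ) ^ b - m - b * v) + m + b * v ^ 2
      = m ^ 2 + 2 * m * (b * v) + (b * v) ^ 2 := by
    have h' : 2 * ((u : ℤ) * v ^ b) + m + u ^ 2 + b * v ^ 2 = (m + u + b * v) ^ 2 := by
      exact_mod_cast h
    linear_combination h'
  have hpos : 0 < (v : ℤ) ^ b - m - b * v := by
    have h1 : (0 : ℤ) < 2 * (u : ℤ) * ((v : ℤ) ^ b - m - b * v) := by
      have hm : (m : ℤ) ≤ m ^ 2 := by
        have := Nat.le_mul_self m
        rw [sq]; exact_mod_cast this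
      have hbv : (b : ℤ) * v ^ 2 < (b * v) ^ 2 := by
        have hb' : (2 : ℤ) ≤ b := by exact_mod_cast hb
        have hv' : (2 : ℤ) ≤ v := by exact_mod_cast hv
        have : (0 : ℤ) < (b - 1) * (b * v ^ 2) := by
          apply mul_pos (by linarith)
          positivity
        nlinarith
      have hmbv : (0 : ℤ) ≤ 2 * m * (b * v) := by positivity
      linarith
    by_contra hc
    push Not at hc
    have : 2 * (u : ℤ) * ((v : ℤ) ^ b - m - b * v) ≤ 0 :=
      mul_nonpos_of_nonneg_of_nonpos (by positivity) hc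
    linarith
  obtain ⟨d, hd⟩ := Int.eq_ofNat_of_zero_le hpos.le
  rw [hd] at hpos hZ
  refine ⟨d, by exact_mod_cast hpos, ?_, by exact_mod_cast hZ⟩
  have : (d : ℤ) + m + b * v = v ^ b := by linarith
  exact_mod_cast this

/-- bound for `v ^ b` when `b ≥ 3` -/
lemma pow_aux {b v : ℕ} (hb : 3 ≤ b) (hv : 2 ≤ v) :
    v ^ b ≤ 16 ∨ 100 * (b * v) ^ 2 ≤ 81 * (4 * v ^ b) := by
  rcases Nat.lt_or_ge b 5 with h5 | h5
  · rcases Nat.lt_or_ge v 3 with h3 | h3
    · left
      obtain rfl : v = 2 := by omega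
      calc 2 ^ b ≤ 2 ^ 4 := Nat.pow_le_pow_right (by norm_num) (by omega)
        _ = 16 := by norm_num
    · right
      have : b = 3 ∨ b = 4 := by omega
      rcases this with rfl | rfl
      · nlinarith [sq_nonneg v, mul_le_mul_left h3 (v ^ 2)]
      · have h9 : 9 ≤ v ^ 2 := by nlinarith
        nlinarith [sq_nonneg v, mul_le_mul_left h9 (v ^ 2)]
  · right
    induction b, h5 using Nat.le_induction with
    | base =>
      have h8 : 2 ^ 3 ≤ v ^ 3 := Nat.pow_le_pow_left hv 3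
      calc 100 * (5 * v) ^ 2 = 2500 * v ^ 2 := by ring
        _ ≤ 81 * (4 * (v ^ 2 * 2 ^ 3)) := by omega
        _ ≤ 81 * (4 * (v ^ 2 * v ^ 3)) := by gcongr
        _ = _ := by ring
    | succ b hb5 ih =>
      have ih' := ih (by omega)
      rw [pow_succ v b]
      have : ((b + 1) * v) ^ 2 ≤ 2 * (b * v) ^ 2 := by
        have : (b + 1) ^ 2 ≤ 2 * b ^ 2 := by nlinarith
        calc ((b + 1) * v) ^ 2 = (b + 1) ^ 2 * v ^ 2 := by ring
          _ ≤ 2 * b ^ 2 * v ^ 2 := by gcongr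
          _ = _ := by ring
      calc 100 * ((b + 1) * v) ^ 2 ≤ 100 * (2 * (b * v) ^ 2) := by gcongr
        _ = 2 * (100 * (b * v) ^ 2) := by ring
        _ ≤ 2 * (81 * (4 * v ^ b)) := by gcongr
        _ = 81 * (4 * (v ^ b * 2)) := by ring
        _ ≤ _ := by gcongr

lemma E1_bound {b u v m : ℕ} (hb : 3 ≤ b) (hu : 2 ≤ u) (hv : 2 ≤ v) (h : E 1 b u v m) :
    v ^ b ≤ 25 * (m + 2) ^ 2 := by
  obtain ⟨d, hd1, hd2, hd3⟩ := E1_d (by omega) hv h
  rcases pow_aux hb hv with h16 | h81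
  · nlinarith
  · have hQ : 4 * v ^ b ≤ ((m + 2) + b * v) ^ 2 := by
      have h1 : 4 * d ≤ 2 * u * d := by nlinarith
      rw [← hd2]
      nlinarith
    have := size_lemma _ _ _ hQ h81
    omega

/-- the number that `d` divides -/
def W (b v : ℕ) : ℕ := (v ^ b) ^ 2 + b * v - (v ^ b + b * v ^ 2)

lemma mul_le_two_pow {b v : ℕ} (hb : 2 ≤ b) (hv : 2 ≤ v) : b * v ≤ v ^ b := by
  induction b, hb using Nat.le_induction with
  | base => nlinarith
  | succ b hb ih =>
    have h1 : v ≤ v ^ b := le_trans (by nlinarith) ih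
    have h2 := Nat.mul_le_mul_left (v ^ b) hv
    rw [pow_succ, add_mul, one_mul]
    omega

lemma W_lt {b v : ℕ} (hb : 2 ≤ b) (hv : 2 ≤ v) : v ^ b + b * v ^ 2 < (v ^ b) ^ 2 + b * v := by
  have h1 := mul_le_two_pow hb hv
  have h2 : v ^ 2 ≤ v ^ b := Nat.pow_le_pow_right (by omega) hb
  generalize v ^ b = t at *
  have h3 : (0 : ℤ) < (b * v) * (t - v) := by
    have hb' : (2 : ℤ) ≤ b := by exact_mod_cast hb
    have hv' : (2 : ℤ) ≤ v := by exact_mod_cast hv
    have h2' : (v : ℤ) ^ 2 ≤ t := by exact_mod_cast h2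
    apply mul_pos (by positivity)
    nlinarith
  have h4 : (0 : ℤ) ≤ (t - b * v) * (t - 1) := by
    have h1' : (b : ℤ) * v ≤ t := by exact_mod_cast h1
    have h2' : (v : ℤ) ^ 2 ≤ t := by exact_mod_cast h2
    have hv' : (2 : ℤ) ≤ v := by exact_mod_cast hv
    apply mul_nonneg (by linarith)
    nlinarith
  have h5 : (t : ℤ) + b * v ^ 2 < t ^ 2 + b * v := by nlinarith
  exact_mod_cast h5

lemma W_pos {b v : ℕ} (hb : 2 ≤ b) (hv : 2 ≤ v) : W b v ≠ 0 := by
  have := W_lt hb hv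
  unfold W
  omega

lemma W_le {b v : ℕ} (hv : 2 ≤ v) : W b v ≤ (v ^ b) ^ 2 := by
  unfold W
  have : b * v ≤ b * v ^ 2 := by
    rw [sq]; nlinarith [Nat.zero_le (b * v)]
  omega

lemma d_dvd_W {b u v m d : ℕ} (hb : 2 ≤ b) (hv : 2 ≤ v) (hd2 : d + m + b * v = v ^ b)
    (hd3 : 2 * u * d + m + b * v ^ 2 = m ^ 2 + 2 * m * (b * v) + (b * v) ^ 2) :
    d ∣ W b v := by
  have hlt := W_lt hb hv
  have hW : ((W b v : ℕ) : ℤ) = ((v : ℤ) ^ b) ^ 2 + b * v - (v ^ b + b * v ^ 2) := by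
    unfold W
    rw [Nat.cast_sub hlt.le]
    push_cast
    ring
  have : (d : ℤ) ∣ ((W b v : ℕ) : ℤ) := by
    rw [hW]
    have e2 : (d : ℤ) + m + b * v = v ^ b := by exact_mod_cast hd2
    have e3 : 2 * (u : ℤ) * d + m + b * v ^ 2 = m ^ 2 + 2 * m * (b * v) + (b * v) ^ 2 := by
      exact_mod_cast hd3
    refine ⟨2 * u + 2 * (v : ℤ) ^ b - d - 1, ?_⟩
    rw [← e2]
    linear_combination (-1) * e3
  exact_mod_cast this

lemma card_small {c M : ℕ} (hM : 1 ≤ M) (h : c * (c - 1) ≤ 6 * M ^ 24) : c ≤ 3 * M ^ 12 := by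
  by_contra hc
  push Not at hc
  have h1 : (3 * M ^ 12 + 1) * (3 * M ^ 12) ≤ c * (c - 1) := Nat.mul_le_mul (by omega) (by omega)
  have h2 : (3 * M ^ 12 + 1) * (3 * M ^ 12) = 9 * M ^ 24 + 3 * M ^ 12 := by ring
  have h3 : 1 ≤ M ^ 12 := Nat.one_le_pow _ _ hM
  omega

/-- for a tuple with two copies of `x` and `b` copies of `y` -/
lemma E2_conic {b x y m : ℕ} (hy : 1 ≤ y) (hx : 1 ≤ x) (h : E 2 b x y m) :
    ((2 * m + 4 * x + 2 * b * y - 1 : ℕ) : ℤ) ^ 2 =
      ((8 * (y ^ b + 1) : ℕ) : ℤ) * x ^ 2 - 8 * x + ((4 * b * y * (y - 1) + 1 : ℕ) : ℤ) := by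
  obtain ⟨y', rfl⟩ : ∃ y', y = y' + 1 := ⟨y - 1, by omega⟩
  have h1 : ((2 * m + 4 * x + 2 * b * (y' + 1) - 1 : ℕ) : ℤ) = 2 * m + 4 * x + 2 * b * (y' + 1) - 1 := by
    rw [Nat.cast_sub (by omega)]; push_cast; ring
  rw [h1]
  have h2 : y' + 1 - 1 = y' := by omega
  rw [h2]
  unfold E at h
  have h' : 2 * ((x : ℤ) ^ 2 * (y' + 1) ^ b) + m + 2 * x ^ 2 + b * (y' + 1) ^ 2
      = (m + 2 * x + b * (y' + 1)) ^ 2 := by
    exact_mod_cast h
  push_cast
  linear_combination (-4) * h'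

open Classical in
/-- the set of abscissae `x ≤ X` of lattice points on the conic -/
noncomputable def SS (A G X : ℕ) : Finset ℕ :=
  (Finset.Icc 1 X).filter (fun x => ∃ Z : ℕ, (Z : ℤ) ^ 2 = A * x ^ 2 - 8 * x + G ∧ G ≤ Z)

lemma mem_SS {A G X x : ℕ} : x ∈ SS A G X ↔
    (1 ≤ x ∧ x ≤ X) ∧ ∃ Z : ℕ, (Z : ℤ) ^ 2 = A * x ^ 2 - 8 * x + G ∧ G ≤ Z := by
  simp [SS]

lemma SS_card {A G M X : ℕ} (hM : 1 ≤ M) (hA : 9 ≤ A) (hAG : 16 < A * G) (hX : X ≤ 3 * M ^ 24) :
    (SS A G X).card ≤ 3 * M ^ 12 := by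
  apply card_small hM
  have := conic_card hA hAG (SS A G X) X (fun x hx => (mem_SS.1 hx).1.2)
    (fun x hx => (mem_SS.1 hx).1.1) (fun x hx => (mem_SS.1 hx).2)
  omega

/-- type 1: single entry `u ≤ M^6`, double entry `v` -/
lemma count_B1 {M : ℕ} (hM : 1 ≤ M) (B : Finset ℕ)
    (h : ∀ n ∈ B, n ≤ M ^ 24 ∧ ∃ u v m, 2 ≤ u ∧ u ≤ M ^ 6 ∧ 2 ≤ v ∧ m + 3 = n ∧ E 1 2 u v m) :
    B.card ≤ 5 * M ^ 18 := by
  classical
  set V : Finset (Σ _ : ℕ, ℕ) := (Finset.Icc 2 (M ^ 6)).sigma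
    (fun u => Finset.range (2 * u ^ 2) ∪ SS (8 * (u + 1)) (4 * u * (u - 1) + 1) (3 * M ^ 24)) with hV
  have hc : V.card ≤ 5 * M ^ 18 := by
    rw [hV, Finset.card_sigma]
    calc ∑ u ∈ Finset.Icc 2 (M ^ 6), (Finset.range (2 * u ^ 2) ∪
          SS (8 * (u + 1)) (4 * u * (u - 1) + 1) (3 * M ^ 24)).card
        ≤ ∑ _u ∈ Finset.Icc 2 (M ^ 6), (5 * M ^ 12) := by
          apply Finset.sum_le_sum
          intro u hu
          rw [Finset.mem_Icc] at hu
          have h1 : (SS (8 * (u + 1)) (4 * u * (u - 1) + 1) (3 * M ^ 24)).card ≤ 3 * M ^ 12 := by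
            apply SS_card hM (by omega) _ le_rfl
            have : 4 * 2 * 1 ≤ 4 * u * (u - 1) := by
              apply Nat.mul_le_mul (by omega) (by omega)
            nlinarith
          have h2 : 2 * u ^ 2 ≤ 2 * M ^ 12 := by
            have : u ^ 2 ≤ (M ^ 6) ^ 2 := Nat.pow_le_pow_left hu.2 2
            rw [← pow_mul, show 6 * 2 = 12 from rfl] at this
            omega
          refine (Finset.card_union_le _ _).trans ?_
          rw [Finset.card_range]
          omega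
      _ = (M ^ 6 + 1 - 2) * (5 * M ^ 12) := by
          rw [Finset.sum_const, Nat.card_Icc, smul_eq_mul]
      _ ≤ M ^ 6 * (5 * M ^ 12) := by gcongr; omega
      _ = 5 * M ^ 18 := by ring
  refine le_trans (card_le_of_rel B V
    (fun n p => ∃ m, m + 3 = n ∧ 2 ≤ p.1 ∧ E 1 2 p.1 p.2 m) ?_ ?_) hc
  · intro n hn
    obtain ⟨hnN, u, v, m, hu, huM, hv, hm, hE⟩ := h n hn
    refine ⟨⟨u, v⟩, ?_, m, hm, hu, hE⟩
    rw [hV, Finset.mem_sigma]
    refine ⟨Finset.mem_Icc.2 ⟨hu, huM⟩, ?_⟩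
    dsimp only
    rw [Finset.mem_union, Finset.mem_range]
    rcases Nat.lt_or_ge v (2 * u ^ 2) with hlt | hge
    · exact Or.inl hlt
    · right
      rw [mem_SS]
      refine ⟨⟨by omega, ?_⟩, ?_⟩
      · -- v ≤ 3 M^24
        by_contra hc
        push Not at hc
        obtain ⟨d, hd1, hd2, hd3⟩ := E1_d le_rfl hv hE
        have h3 : 3 * m + 9 ≤ v := by omega
        have h4 : 4 * d ≤ 2 * u * d := by nlinarith
        obtain ⟨w, rfl⟩ : ∃ w, v = 3 * m + 9 + w := ⟨v - (3 * m + 9), by omega⟩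
        nlinarith
      · have hE' := E_symm hE
        have h5 := E2_conic (by omega : 1 ≤ u) (by omega : 1 ≤ v) hE'
        rw [pow_one] at h5
        refine ⟨2 * m + 4 * v + 2 * 1 * u - 1, ?_, ?_⟩
        · rw [h5, mul_one]
        · -- G ≤ Z
          have h6 : (4 * u * (u - 1) + 1) ≤ 4 * u ^ 2 := by
            obtain ⟨u', rfl⟩ : ∃ u', u = u' + 1 := ⟨u - 1, by omega⟩
            have : u' + 1 - 1 = u' := by omega
            rw [this]; nlinarith
          have h7 : 4 * u ^ 2 ≤ 2 * v := by omega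
          omega
  · rintro n n' ⟨u, v⟩ ⟨m, hm, h2, hE⟩ ⟨m', hm', h2', hE'⟩
    have h3 : 1 ≤ u := le_trans one_le_two h2
    have := E_unique le_rfl h3 hE hE'
    omega

/-- tuples with a single entry `u` and `b` entries `v`, where `(b, v)` ranges over a small set -/
lemma count_single {K : ℕ} (P : Finset (ℕ × ℕ)) (B : Finset ℕ)
    (hP : ∀ p ∈ P, (W p.1 p.2).divisors.card ≤ K)
    (h : ∀ n ∈ B, ∃ b u v m, 2 ≤ b ∧ 2 ≤ v ∧ (b, v) ∈ P ∧ m + 1 + b = n ∧ E 1 b u v m) :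
    B.card ≤ P.card * K := by
  classical
  set V : Finset (Σ _ : ℕ × ℕ, ℕ) := P.sigma (fun p => (W p.1 p.2).divisors) with hV
  have hc : V.card ≤ P.card * K := by
    rw [hV, Finset.card_sigma]
    calc ∑ p ∈ P, (W p.1 p.2).divisors.card ≤ ∑ _p ∈ P, K := Finset.sum_le_sum hP
      _ = P.card * K := by rw [Finset.sum_const, smul_eq_mul]
  refine le_trans (card_le_of_rel B V
    (fun n q => ∃ m, m + 1 + q.1.1 = n ∧ q.2 + m + q.1.1 * q.1.2 = q.1.2 ^ q.1.1) ?_ ?_) hc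
  · intro n hn
    obtain ⟨b, u, v, m, hb, hv, hbv, hm, hE⟩ := h n hn
    obtain ⟨d, hd1, hd2, hd3⟩ := E1_d hb hv hE
    refine ⟨⟨(b, v), d⟩, ?_, m, hm, hd2⟩
    rw [hV, Finset.mem_sigma]
    refine ⟨hbv, ?_⟩
    dsimp only
    rw [Nat.mem_divisors]
    exact ⟨d_dvd_W hb hv hd2 hd3, W_pos hb hv⟩
  · rintro n n' ⟨⟨b, v⟩, d⟩ ⟨m, hm, h2⟩ ⟨m', hm', h2'⟩
    dsimp only at *
    omega

/-- type 2: single entry `u > M^6`, double entry `v` -/
lemma count_B2 {M C : ℕ} (hM : 2 ≤ M)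
    (hC : ∀ w, w ≠ 0 → w ≤ 625 * M ^ 96 → w.divisors.card ≤ C * M ^ 2) (B : Finset ℕ)
    (h : ∀ n ∈ B, n ≤ M ^ 24 ∧ ∃ u v m, M ^ 6 < u ∧ 2 ≤ v ∧ m + 3 = n ∧ E 1 2 u v m) :
    B.card ≤ 2 * C * M ^ 23 := by
  classical
  have hc := count_single (K := C * M ^ 2)
    ((Finset.Icc 2 (2 * M ^ 21)).image (fun v => (2, v))) B ?_ ?_
  · refine hc.trans ?_
    calc ((Finset.Icc 2 (2 * M ^ 21)).image (fun v => (2, v))).card * (C * M ^ 2)
        ≤ (2 * M ^ 21) * (C * M ^ 2) := by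
          gcongr
          refine Finset.card_image_le.trans ?_
          rw [Nat.card_Icc]
          omega
      _ = 2 * C * M ^ 23 := by ring
  · intro p hp
    rw [Finset.mem_image] at hp
    obtain ⟨v, hv, rfl⟩ := hp
    rw [Finset.mem_Icc] at hv
    dsimp only
    apply hC _ (W_pos le_rfl hv.1)
    calc W 2 v ≤ (v ^ 2) ^ 2 := W_le hv.1
      _ ≤ ((2 * M ^ 21) ^ 2) ^ 2 := by
        have := hv.2
        gcongr
      _ = 16 * M ^ 84 := by ring
      _ ≤ 625 * M ^ 96 := by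
        apply Nat.mul_le_mul (by norm_num)
        exact Nat.pow_le_pow_right (by omega) (by norm_num)
  · intro n hn
    obtain ⟨hnN, u, v, m, hu, hv, hm, hE⟩ := h n hn
    refine ⟨2, u, v, m, le_rfl, hv, ?_, by omega, hE⟩
    rw [Finset.mem_image]
    refine ⟨v, ?_, rfl⟩
    rw [Finset.mem_Icc]
    refine ⟨hv, ?_⟩
    by_contra hcon
    push Not at hcon
    obtain ⟨d, hd1, hd2, hd3⟩ := E1_d le_rfl hv hE
    have hM21 : 2 ^ 21 ≤ M ^ 21 := Nat.pow_le_pow_left hM 21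
    have hM3 : 8 ≤ M ^ 3 := by
      calc 8 = 2 ^ 3 := by norm_num
        _ ≤ M ^ 3 := Nat.pow_le_pow_left hM 3
    have e1 : M ^ 24 = M ^ 3 * M ^ 21 := by ring
    have e2 : M ^ 6 = M ^ 3 * M ^ 3 := by ring
    set q := M ^ 3 with hq
    set t := M ^ 21 with ht
    have ht1 : 2 ^ 21 ≤ t := hM21
    have hqt : q ≤ t := by
      rw [hq, ht]; exact Nat.pow_le_pow_right (by omega) (by norm_num)
    have hm' : m ≤ q * t := by omega
    have hmt : m ≤ t * t := hm'.trans (Nat.mul_le_mul_right t hqt)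
    -- 2 * (2 v + m) ≤ v^2
    have h5 : 2 * (2 * v + m) ≤ v ^ 2 := by nlinarith
    have h6 : v ^ 2 ≤ 2 * d := by omega
    have h7 : u * v ^ 2 ≤ (m + 2 * v) ^ 2 := by
      have : u * v ^ 2 ≤ u * (2 * d) := Nat.mul_le_mul_left u h6
      nlinarith
    have h8 : (q * v) ^ 2 ≤ (m + 2 * v) ^ 2 := by
      calc (q * v) ^ 2 = (q * q) * v ^ 2 := by ring
        _ ≤ u * v ^ 2 := by
          apply Nat.mul_le_mul_right
          omega
        _ ≤ _ := h7
    have h9 : q * v ≤ m + 2 * v := by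
      exact (Nat.pow_le_pow_iff_left (by norm_num)).1 h8
    clear_value q t
    obtain ⟨q', rfl⟩ : ∃ q', q = q' + 2 := ⟨q - 2, by omega⟩
    have h10 : q' * v ≤ (q' + 2) * t := by nlinarith
    have h11 : q' * (2 * t + 1) ≤ q' * v := Nat.mul_le_mul_left q' hcon
    nlinarith


/-- type 3: single entry `u`, `b ≥ 3` copies of `v` -/
lemma count_B3 {M C : ℕ} (hM : 2 ≤ M) (hM2 : 100 * M ^ 48 ≤ 2 ^ M)
    (hC : ∀ w, w ≠ 0 → w ≤ 625 * M ^ 96 → w.divisors.card ≤ C * M ^ 2) (B : Finset ℕ)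
    (h : ∀ n ∈ B, n ≤ M ^ 24 ∧ ∃ b u v m, 3 ≤ b ∧ 2 ≤ u ∧ 2 ≤ v ∧ m + 1 + b = n ∧ E 1 b u v m) :
    B.card ≤ 3 * C * M ^ 19 := by
  classical
  have hc := count_single (K := C * M ^ 2)
    ((Finset.Icc 3 M ×ˢ Finset.Icc 2 (3 * M ^ 16)).filter (fun p => p.2 ^ p.1 ≤ 25 * M ^ 48)) B ?_ ?_
  · refine hc.trans ?_
    calc ((Finset.Icc 3 M ×ˢ Finset.Icc 2 (3 * M ^ 16)).filter
            (fun p => p.2 ^ p.1 ≤ 25 * M ^ 48)).card * (C * M ^ 2)
        ≤ (M * (3 * M ^ 16)) * (C * M ^ 2) := by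
          gcongr
          refine (Finset.card_filter_le _ _).trans ?_
          rw [Finset.card_product, Nat.card_Icc, Nat.card_Icc]
          gcongr <;> omega
      _ = 3 * C * M ^ 19 := by ring
  · intro p hp
    rw [Finset.mem_filter, Finset.mem_product, Finset.mem_Icc, Finset.mem_Icc] at hp
    obtain ⟨⟨hp1, hp2⟩, hp3⟩ := hp
    apply hC _ (W_pos (by omega) hp2.1)
    calc W p.1 p.2 ≤ (p.2 ^ p.1) ^ 2 := W_le hp2.1
      _ ≤ (25 * M ^ 48) ^ 2 := by gcongr
      _ = 625 * M ^ 96 := by ring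
  · intro n hn
    obtain ⟨hnN, b, u, v, m, hb, hu, hv, hm, hE⟩ := h n hn
    refine ⟨b, u, v, m, by omega, hv, ?_, by omega, hE⟩
    have h1 := E1_bound hb hu hv hE
    have h2 : v ^ b ≤ 25 * M ^ 48 := by
      calc v ^ b ≤ 25 * (m + 2) ^ 2 := h1
        _ ≤ 25 * (M ^ 24) ^ 2 := by gcongr; omega
        _ = 25 * M ^ 48 := by ring
    rw [Finset.mem_filter, Finset.mem_product, Finset.mem_Icc, Finset.mem_Icc]
    refine ⟨⟨⟨hb, ?_⟩, hv, ?_⟩, h2⟩
    · dsimp only
      have h3 : 2 ^ b ≤ v ^ b := Nat.pow_le_pow_left hv b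
      have h4 : 2 ^ b ≤ 2 ^ M := by
        have : 25 * M ^ 48 ≤ 100 * M ^ 48 := by omega
        omega
      exact (Nat.pow_le_pow_iff_right (by norm_num)).1 h4
    · dsimp only
      have h3 : v ^ 3 ≤ (3 * M ^ 16) ^ 3 := by
        calc v ^ 3 ≤ v ^ b := Nat.pow_le_pow_right (by omega) hb
          _ ≤ 25 * M ^ 48 := h2
          _ ≤ 27 * M ^ 48 := by omega
          _ = _ := by ring
      exact (Nat.pow_le_pow_iff_left (by norm_num)).1 h3

/-- type 4: two copies of `u`, `b ≥ 5` copies of `v` -/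
lemma count_B4 {M : ℕ} (hM : 2 ≤ M) (hM2 : 100 * M ^ 48 ≤ 2 ^ M) (B : Finset ℕ)
    (h : ∀ n ∈ B, n ≤ M ^ 24 ∧ ∃ b u v m, 5 ≤ b ∧ 2 ≤ u ∧ 2 ≤ v ∧ m + 2 + b = n ∧ E 2 b u v m) :
    B.card ≤ 10 * M ^ 23 := by
  classical
  set V : Finset (Σ _ : ℕ × ℕ, ℕ) := (Finset.Icc 5 M ×ˢ Finset.Icc 2 (2 * M ^ 10)).sigma
    (fun p => Finset.range (2 * p.1) ∪
      SS (8 * (p.2 ^ p.1 + 1)) (4 * p.1 * p.2 * (p.2 - 1) + 1) (3 * M ^ 24)) with hV
  have hc : V.card ≤ 10 * M ^ 23 := by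
    rw [hV, Finset.card_sigma]
    calc ∑ p ∈ Finset.Icc 5 M ×ˢ Finset.Icc 2 (2 * M ^ 10), (Finset.range (2 * p.1) ∪
          SS (8 * (p.2 ^ p.1 + 1)) (4 * p.1 * p.2 * (p.2 - 1) + 1) (3 * M ^ 24)).card
        ≤ ∑ _p ∈ Finset.Icc 5 M ×ˢ Finset.Icc 2 (2 * M ^ 10), (5 * M ^ 12) := by
          apply Finset.sum_le_sum
          intro p hp
          rw [Finset.mem_product, Finset.mem_Icc, Finset.mem_Icc] at hp
          obtain ⟨hp1, hp2⟩ := hp
          have hpow : 1 ≤ p.2 ^ p.1 := Nat.one_le_pow _ _ (by omega)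
          have h1 : (SS (8 * (p.2 ^ p.1 + 1)) (4 * p.1 * p.2 * (p.2 - 1) + 1) (3 * M ^ 24)).card
              ≤ 3 * M ^ 12 := by
            apply SS_card (by omega) (by omega) _ le_rfl
            have : 4 * 5 * 2 * 1 ≤ 4 * p.1 * p.2 * (p.2 - 1) := by
              apply Nat.mul_le_mul (Nat.mul_le_mul (Nat.mul_le_mul le_rfl hp1.1) hp2.1) (by omega)
            nlinarith
          have h2 : 2 * p.1 ≤ 2 * M ^ 12 := by
            have : M ^ 1 ≤ M ^ 12 := Nat.pow_le_pow_right (by omega) (by norm_num)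
            rw [pow_one] at this
            omega
          refine (Finset.card_union_le _ _).trans ?_
          rw [Finset.card_range]
          omega
      _ = ((M + 1 - 5) * (2 * M ^ 10 + 1 - 2)) * (5 * M ^ 12) := by
          rw [Finset.sum_const, Finset.card_product, Nat.card_Icc, Nat.card_Icc, smul_eq_mul]
      _ ≤ (M * (2 * M ^ 10)) * (5 * M ^ 12) := by
          gcongr <;> omega
      _ = 10 * M ^ 23 := by ring
  refine le_trans (card_le_of_rel B V
    (fun n p => ∃ m, m + 2 + p.1.1 = n ∧ 1 ≤ p.2 ∧ E 2 p.1.1 p.2 p.1.2 m) ?_ ?_) hc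
  · intro n hn
    obtain ⟨hnN, b, u, v, m, hb, hu, hv, hm, hE⟩ := h n hn
    refine ⟨⟨(b, v), u⟩, ?_, m, hm, by dsimp only; omega, hE⟩
    have h1 := P_bound le_rfl (by omega) (by omega) hu hv hE
    have h2 : u ^ 2 * v ^ b ≤ 50 * M ^ 48 := by
      calc u ^ 2 * v ^ b ≤ 50 * m ^ 2 := h1
        _ ≤ 50 * (M ^ 24) ^ 2 := by gcongr; omega
        _ = 50 * M ^ 48 := by ring
    have h22 : v ^ b ≤ 50 * M ^ 48 := le_trans (Nat.le_mul_of_pos_left _ (by positivity)) h2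
    rw [hV, Finset.mem_sigma, Finset.mem_product, Finset.mem_Icc, Finset.mem_Icc]
    refine ⟨⟨⟨hb, ?_⟩, hv, ?_⟩, ?_⟩
    · dsimp only
      have h3 : 2 ^ b ≤ v ^ b := Nat.pow_le_pow_left hv b
      have h4 : 2 ^ b ≤ 2 ^ M := by
        have : 50 * M ^ 48 ≤ 100 * M ^ 48 := by omega
        omega
      exact (Nat.pow_le_pow_iff_right (by norm_num)).1 h4
    · dsimp only
      have h3 : v ^ 5 ≤ (2 * M ^ 10) ^ 5 := by
        have h4 : 4 * v ^ 5 ≤ u ^ 2 * v ^ b := by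
          apply Nat.mul_le_mul
          · nlinarith
          · exact Nat.pow_le_pow_right (by omega) hb
        have h5 : M ^ 48 ≤ M ^ 50 := Nat.pow_le_pow_right (by omega) (by norm_num)
        have h6 : (2 * M ^ 10) ^ 5 = 32 * M ^ 50 := by ring
        omega
      exact (Nat.pow_le_pow_iff_left (by norm_num)).1 h3
    · dsimp only
      rw [Finset.mem_union, Finset.mem_range]
      rcases Nat.lt_or_ge u (2 * b) with hlt | hge
      · exact Or.inl hlt
      · right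
        rw [mem_SS]
        refine ⟨⟨by omega, ?_⟩, ?_⟩
        · have h3 : 32 ≤ v ^ b := by
            calc 32 = 2 ^ 5 := by norm_num
              _ ≤ v ^ 5 := Nat.pow_le_pow_left hv 5
              _ ≤ v ^ b := Nat.pow_le_pow_right (by omega) hb
          have h4 : u ^ 2 * 32 ≤ u ^ 2 * v ^ b := Nat.mul_le_mul_left _ h3
          have h5 : u ^ 2 ≤ (3 * M ^ 24) ^ 2 := by
            have : (3 * M ^ 24) ^ 2 = 9 * M ^ 48 := by ring
            omega
          exact (Nat.pow_le_pow_iff_left (by norm_num)).1 h5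
        · have h5 := E2_conic (by omega : 1 ≤ v) (by omega : 1 ≤ u) hE
          refine ⟨2 * m + 4 * u + 2 * b * v - 1, h5, ?_⟩
          -- G ≤ Z
          set Z := 2 * m + 4 * u + 2 * b * v - 1 with hZ
          set G := 4 * b * v * (v - 1) + 1 with hG
          have h6 : G ≤ 4 * b * v ^ 2 := by
            obtain ⟨v', rfl⟩ : ∃ v', v = v' + 1 := ⟨v - 1, by omega⟩
            have : v' + 1 - 1 = v' := by omega
            rw [hG, this]
            nlinarith
          have h7 : (8 * v ^ b) * u ^ 2 ≤ Z ^ 2 := by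
            have h8 : ((8 * v ^ b * u ^ 2 : ℕ) : ℤ) ≤ ((Z ^ 2 : ℕ) : ℤ) := by
              push_cast
              rw [h5]
              push_cast
              have hu1 : (1 : ℤ) ≤ u := by
                have : 1 ≤ u := by omega
                exact_mod_cast this
              have hG0 : (0 : ℤ) ≤ (G : ℤ) := Int.natCast_nonneg _
              nlinarith
            exact_mod_cast h8
          have h8 : (4 * b * v ^ 2) ^ 2 ≤ Z ^ 2 := by
            have h9 : v ^ 4 ≤ v ^ b := Nat.pow_le_pow_right (by omega) (by omega)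
            calc (4 * b * v ^ 2) ^ 2 = (4 * v ^ 4) * (2 * b) ^ 2 := by ring
              _ ≤ (8 * v ^ b) * u ^ 2 := by
                apply Nat.mul_le_mul
                · omega
                · exact Nat.pow_le_pow_left hge 2
              _ ≤ Z ^ 2 := h7
          exact h6.trans ((Nat.pow_le_pow_iff_left (by norm_num)).1 h8)
  · rintro n n' ⟨⟨b, v⟩, u⟩ ⟨m, hm, h2, hE⟩ ⟨m', hm', h2', hE'⟩
    dsimp only at *
    have := E_unique (by norm_num) h2 hE hE'
    omega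

/-- type 5: `a ≥ 3` copies of `u`, `b ≥ 4` copies of `v` -/
lemma count_B5 {M C : ℕ} (hM : 2 ≤ M) (hM2 : 100 * M ^ 48 ≤ 2 ^ M)
    (hC : ∀ w, w ≠ 0 → w ≤ 625 * M ^ 96 → w.divisors.card ≤ C * M ^ 2) (B : Finset ℕ)
    (h : ∀ n ∈ B, n ≤ M ^ 24 ∧ ∃ a b u v m, 3 ≤ a ∧ 4 ≤ b ∧ 2 ≤ u ∧ 2 ≤ v ∧ m + a + b = n ∧
      E a b u v m) :
    B.card ≤ 4 * C * M ^ 20 := by
  classical
  set V : Finset ((ℕ × ℕ) × (Σ _ : ℕ, ℕ)) := (Finset.Icc 3 M ×ˢ Finset.Icc 4 M) ×ˢ
    ((Finset.Icc 1 (4 * M ^ 16)).sigma (fun w => w.divisors)) with hV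
  have hc : V.card ≤ 4 * C * M ^ 20 := by
    rw [hV, Finset.card_product, Finset.card_sigma, Finset.card_product, Nat.card_Icc, Nat.card_Icc]
    calc ((M + 1 - 3) * (M + 1 - 4)) * ∑ w ∈ Finset.Icc 1 (4 * M ^ 16), w.divisors.card
        ≤ (M * M) * ∑ _w ∈ Finset.Icc 1 (4 * M ^ 16), (C * M ^ 2) := by
          gcongr with w hw
          · omega
          · omega
          · rw [Finset.mem_Icc] at hw
            apply hC w (by omega)
            calc w ≤ 4 * M ^ 16 := hw.2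
              _ ≤ 625 * M ^ 96 := by
                apply Nat.mul_le_mul (by norm_num)
                exact Nat.pow_le_pow_right (by omega) (by norm_num)
      _ = (M * M) * ((4 * M ^ 16) * (C * M ^ 2)) := by
          rw [Finset.sum_const, Nat.card_Icc, smul_eq_mul, Nat.add_sub_cancel]
      _ = 4 * C * M ^ 20 := by ring
  refine le_trans (card_le_of_rel B V
    (fun n p => ∃ m, m + p.1.1 + p.1.2 = n ∧ 1 ≤ p.1.1 ∧ 1 ≤ p.2.2 ∧
      E p.1.1 p.1.2 p.2.2 (p.2.1 / p.2.2) m) ?_ ?_) hc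
  · intro n hn
    obtain ⟨hnN, a, b, u, v, m, ha, hb, hu, hv, hm, hE⟩ := h n hn
    have hdiv : u * v / u = v := Nat.mul_div_cancel_left v (by omega)
    refine ⟨((a, b), ⟨u * v, u⟩), ?_, m, hm, by dsimp only; omega, by dsimp only; omega, ?_⟩
    · have h1 := P_bound (by omega) (by omega) (by omega) hu hv hE
      have h2 : u ^ a * v ^ b ≤ 50 * M ^ 48 := by
        calc u ^ a * v ^ b ≤ 50 * m ^ 2 := h1
          _ ≤ 50 * (M ^ 24) ^ 2 := by gcongr; omega
          _ = 50 * M ^ 48 := by ring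
      have hua : 1 ≤ u ^ a := Nat.one_le_pow _ _ (by omega)
      have hvb : 1 ≤ v ^ b := Nat.one_le_pow _ _ (by omega)
      have h3 : u ^ a ≤ 50 * M ^ 48 := le_trans (Nat.le_mul_of_pos_right _ hvb) h2
      have h4 : v ^ b ≤ 50 * M ^ 48 := le_trans (Nat.le_mul_of_pos_left _ hua) h2
      rw [hV]
      simp only [Finset.mem_product, Finset.mem_sigma, Finset.mem_Icc, Nat.mem_divisors]
      refine ⟨⟨⟨ha, ?_⟩, hb, ?_⟩, ⟨?_, ?_⟩, ⟨v, rfl⟩, ?_⟩
      · have h5 : 2 ^ a ≤ u ^ a := Nat.pow_le_pow_left hu a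
        have h6 : 2 ^ a ≤ 2 ^ M := by
          have : 50 * M ^ 48 ≤ 100 * M ^ 48 := by omega
          omega
        exact (Nat.pow_le_pow_iff_right (by norm_num)).1 h6
      · have h5 : 2 ^ b ≤ v ^ b := Nat.pow_le_pow_left hv b
        have h6 : 2 ^ b ≤ 2 ^ M := by
          have : 50 * M ^ 48 ≤ 100 * M ^ 48 := by omega
          omega
        exact (Nat.pow_le_pow_iff_right (by norm_num)).1 h6
      · nlinarith
      · have h5 : (u * v) ^ 3 ≤ (4 * M ^ 16) ^ 3 := by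
          calc (u * v) ^ 3 = u ^ 3 * v ^ 3 := by ring
            _ ≤ u ^ a * v ^ b := by
              apply Nat.mul_le_mul
              · exact Nat.pow_le_pow_right (by omega) ha
              · exact Nat.pow_le_pow_right (by omega) (by omega)
            _ ≤ 50 * M ^ 48 := h2
            _ ≤ 64 * M ^ 48 := by omega
            _ = _ := by ring
        exact (Nat.pow_le_pow_iff_left (by norm_num)).1 h5
      · have : 0 < u * v := by positivity
        omega
    · dsimp only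
      rw [hdiv]; exact hE
  · rintro n n' ⟨⟨a, b⟩, ⟨w, u⟩⟩ ⟨m, hm, ha, hu, hE⟩ ⟨m', hm', ha', hu', hE'⟩
    dsimp only at *
    have := E_unique ha hu hE hE'
    omega

/-- **Core**: there are arbitrarily large `n` for which no tuple with at most two distinct
non-one entries works. -/
theorem core (n0 : ℕ) : ∃ n, n0 ≤ n ∧ ∀ a b u v m, 1 ≤ a → a ≤ b → 2 ≤ u → 2 ≤ v →
    m + a + b = n → ¬ E a b u v m := by
  classical
  by_contra hcon
  push Not at hcon
  obtain ⟨C0, hC01, hC0⟩ := divisor_bound 48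
  obtain ⟨C1, hC11, hC1⟩ := pow_le_const_mul_two_pow 49
  -- the constant for the divisor function
  obtain ⟨C, hCdef⟩ : ∃ C, C = 625 * C0 := ⟨_, rfl⟩
  obtain ⟨K, hK⟩ : ∃ K, K = 5 + 2 * C + 3 * C + 10 + 4 * C := ⟨_, rfl⟩
  obtain ⟨M, hMdef⟩ : ∃ M, M = 100 * C1 + 8 * K + 40 + n0 := ⟨_, rfl⟩
  have hM2 : 2 ≤ M := by omega
  have hpow : 100 * M ^ 48 ≤ 2 ^ M := by
    have h1 : (M + 1) ^ 49 ≤ C1 * 2 ^ M := hC1 M
    have h2 : M ^ 49 ≤ (M + 1) ^ 49 := Nat.pow_le_pow_left (by omega) _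
    have h3 : (100 * C1) * M ^ 48 ≤ M ^ 49 := by
      calc (100 * C1) * M ^ 48 ≤ M * M ^ 48 := Nat.mul_le_mul_right _ (by omega)
        _ = M ^ 49 := by ring
    have h4 : C1 * (100 * M ^ 48) ≤ C1 * 2 ^ M := by
      calc C1 * (100 * M ^ 48) = (100 * C1) * M ^ 48 := by ring
        _ ≤ _ := h3.trans (h2.trans h1)
    exact Nat.le_of_mul_le_mul_left h4 (by omega)
  have hC : ∀ w, w ≠ 0 → w ≤ 625 * M ^ 96 → w.divisors.card ≤ C * M ^ 2 := by
    intro w hw hw2
    have h1 := hC0 w hw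
    have h2 : w.divisors.card ^ 48 ≤ (C * M ^ 2) ^ 48 := by
      calc w.divisors.card ^ 48 ≤ C0 * w := h1
        _ ≤ C0 * (625 * M ^ 96) := Nat.mul_le_mul_left _ hw2
        _ = C * M ^ 96 := by rw [hCdef]; ring
        _ ≤ C ^ 48 * M ^ 96 := by
          apply Nat.mul_le_mul_right
          apply Nat.le_self_pow (by norm_num)
        _ = (C * M ^ 2) ^ 48 := by rw [mul_pow, ← pow_mul]
    exact (Nat.pow_le_pow_iff_left (by norm_num)).1 h2
  -- the bad set
  set B : Finset ℕ := (Finset.range (M ^ 24 + 1)).filter (fun n => n0 ≤ n ∧ 9 ≤ n ∧ n % 8 = 1) with hB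
  set B1 := B.filter (fun n => ∃ u v m, 2 ≤ u ∧ u ≤ M ^ 6 ∧ 2 ≤ v ∧ m + 3 = n ∧ E 1 2 u v m) with hB1
  set B2 := B.filter (fun n => ∃ u v m, M ^ 6 < u ∧ 2 ≤ v ∧ m + 3 = n ∧ E 1 2 u v m) with hB2
  set B3 := B.filter (fun n => ∃ b u v m, 3 ≤ b ∧ 2 ≤ u ∧ 2 ≤ v ∧ m + 1 + b = n ∧ E 1 b u v m) with hB3
  set B4 := B.filter (fun n => ∃ b u v m, 5 ≤ b ∧ 2 ≤ u ∧ 2 ≤ v ∧ m + 2 + b = n ∧ E 2 b u v m) with hB4
  set B5 := B.filter (fun n => ∃ a b u v m, 3 ≤ a ∧ 4 ≤ b ∧ 2 ≤ u ∧ 2 ≤ v ∧ m + a + b = n ∧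
      E a b u v m) with hB5
  have hBN : ∀ n ∈ B, n ≤ M ^ 24 := by
    intro n hn
    rw [hB, Finset.mem_filter, Finset.mem_range] at hn
    omega
  have hsub : B ⊆ B1 ∪ (B2 ∪ (B3 ∪ (B4 ∪ B5))) := by
    intro n hn
    have hn' := hn
    rw [hB, Finset.mem_filter, Finset.mem_range] at hn'
    obtain ⟨-, hn0, hn9, hn8⟩ := hn'
    obtain ⟨a, b, u, v, m, ha, hab, hu, hv, hm, hE⟩ := hcon n hn0
    simp only [Finset.mem_union, hB1, hB2, hB3, hB4, hB5, Finset.mem_filter, hn, true_and]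
    rcases (by omega : a = 1 ∨ a = 2 ∨ 3 ≤ a) with rfl | rfl | ha3
    · rcases (by omega : b = 1 ∨ b = 2 ∨ 3 ≤ b) with rfl | rfl | hb3
      · exact (case11 (by omega) (by omega) hE).elim
      · rcases Nat.lt_or_ge (M ^ 6) u with hu6 | hu6
        · right; left
          exact ⟨u, v, m, hu6, hv, by omega, hE⟩
        · left
          exact ⟨u, v, m, hu, hu6, hv, by omega, hE⟩
      · right; right; left
        exact ⟨b, u, v, m, hb3, hu, hv, hm, hE⟩
    · rcases (by omega : b = 2 ∨ b = 3 ∨ b = 4 ∨ 5 ≤ b) with rfl | rfl | rfl | hb5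
      · exact (case22 (by omega) hE).elim
      · exact (case23 (by omega) hE).elim
      · exact (case24 (by omega) hE).elim
      · right; right; right; left
        exact ⟨b, u, v, m, hb5, hu, hv, hm, hE⟩
    · rcases (by omega : (a = 3 ∧ b = 3) ∨ 4 ≤ b) with ⟨rfl, rfl⟩ | hb4
      · exact (case33 (by omega) hE).elim
      · right; right; right; right
        exact ⟨a, b, u, v, m, ha3, hb4, hu, hv, hm, hE⟩
  have c1 : B1.card ≤ 5 * M ^ 18 := count_B1 (by omega) B1 (by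
    intro n hn
    rw [hB1, Finset.mem_filter] at hn
    exact ⟨hBN n hn.1, hn.2⟩)
  have c2 : B2.card ≤ 2 * C * M ^ 23 := count_B2 hM2 hC B2 (by
    intro n hn
    rw [hB2, Finset.mem_filter] at hn
    exact ⟨hBN n hn.1, hn.2⟩)
  have c3 : B3.card ≤ 3 * C * M ^ 19 := count_B3 hM2 hpow hC B3 (by
    intro n hn
    rw [hB3, Finset.mem_filter] at hn
    exact ⟨hBN n hn.1, hn.2⟩)
  have c4 : B4.card ≤ 10 * M ^ 23 := count_B4 hM2 hpow B4 (by
    intro n hn
    rw [hB4, Finset.mem_filter] at hn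
    exact ⟨hBN n hn.1, hn.2⟩)
  have c5 : B5.card ≤ 4 * C * M ^ 20 := count_B5 hM2 hpow hC B5 (by
    intro n hn
    rw [hB5, Finset.mem_filter] at hn
    exact ⟨hBN n hn.1, hn.2⟩)
  have m1 : M ^ 18 ≤ M ^ 23 := Nat.pow_le_pow_right (by omega) (by norm_num)
  have m2 : M ^ 19 ≤ M ^ 23 := Nat.pow_le_pow_right (by omega) (by norm_num)
  have m3 : M ^ 20 ≤ M ^ 23 := Nat.pow_le_pow_right (by omega) (by norm_num)
  have upper : B.card ≤ K * M ^ 23 := by
    have h1 := Finset.card_le_card hsub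
    have h2 := Finset.card_union_le B1 (B2 ∪ (B3 ∪ (B4 ∪ B5)))
    have h3 := Finset.card_union_le B2 (B3 ∪ (B4 ∪ B5))
    have h4 := Finset.card_union_le B3 (B4 ∪ B5)
    have h5 := Finset.card_union_le B4 B5
    have h6 : 3 * C * M ^ 19 ≤ 3 * C * M ^ 23 := Nat.mul_le_mul_left _ m2
    have h7 : 4 * C * M ^ 20 ≤ 4 * C * M ^ 23 := Nat.mul_le_mul_left _ m3
    have h8 : K * M ^ 23 = 5 * M ^ 23 + 2 * C * M ^ 23 + 3 * C * M ^ 23 + 10 * M ^ 23
        + 4 * C * M ^ 23 := by rw [hK]; ring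
    omega
  -- lower bound for the bad set
  have lower : K * M ^ 23 < B.card := by
    -- numbers 8 * (n0 + 1 + i) + 1 for i ≤ K * M^23
    have hinj : (Finset.range (K * M ^ 23 + 1)).card ≤ B.card := by
      apply Finset.card_le_card_of_injOn (fun i => 8 * (n0 + 1 + i) + 1)
      · intro i hi
        have hi' : i < K * M ^ 23 + 1 := by simpa using hi
        have h1 : 8 * (n0 + 1 + i) + 1 ≤ M ^ 24 := by
          have h2 : M ^ 24 = M * M ^ 23 := by ring
          have h3 : 1 ≤ M ^ 23 := Nat.one_le_pow _ _ (by omega)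
          have h5 : M ^ 23 = M * M ^ 22 := by ring
          have h6 : 40 ≤ M ^ 22 := by
            calc 40 ≤ M := by omega
              _ = M ^ 1 := (pow_one M).symm
              _ ≤ M ^ 22 := Nat.pow_le_pow_right (by omega) (by norm_num)
          have h7 : n0 * 40 ≤ M ^ 23 := by
            rw [h5]
            exact Nat.mul_le_mul (by omega) h6
          have h8 : (8 * K + 40) * M ^ 23 ≤ M ^ 24 := by
            rw [h2]
            exact Nat.mul_le_mul_right _ (by omega)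
          have h9 : (8 * K + 40) * M ^ 23 = 8 * (K * M ^ 23) + 40 * M ^ 23 := by ring
          omega
        simp only [hB, Finset.coe_filter, Finset.mem_range, Set.mem_ofPred_eq]
        omega
      · intro i _ j _ hij
        dsimp only at hij
        omega
    rw [Finset.card_range] at hinj
    omega
  omega

end Pool.Agent.Helper47.SigmaTwo
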